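import Mathlib

/-! `λ₁ + ⋯ + λ₄` is not log-concave under the Plancherel measure on partitions of `6`. -/

open Finset

namespace Pool.Agent.Results.MP_64a7c6_pr.SumRows

/-- The rows `λ₁ ≥ λ₂ ≥ ⋯` of a partition. -/
def rows {n : ℕ} (p : Nat.Partition n) : List ℕ := p.parts.sort (· ≥ ·)

/-- The cells `(i, j)`, `j < λ_i`, of the Young diagram with rows `l`. -/
def cells (l : List ℕ) : List (ℕ × ℕ) :=
  (List.range l.length).flatMap fun i => (List.range (l.getD i 0)).map fun j => (i, j)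

/-- A standard Young tableau, as the list of cells holding `1, 2, …, n`: no later cell lies
weakly above and to the left of an earlier one. -/
def IsSYT (l : List ℕ) (T : List (ℕ × ℕ)) : Prop :=
  T.Perm (cells l) ∧ T.Pairwise fun a b => ¬ (b.1 ≤ a.1 ∧ b.2 ≤ a.2)

/-- `f^λ`. -/
noncomputable def f (l : List ℕ) : ℕ := {T | IsSYT l T}.ncard

/-- `μ_n(λ₁ + ⋯ + λ_r = j)`. -/
noncomputable def prob (n r : ℕ) (j : ℤ) : ℝ :=
  ∑ p : Nat.Partition n, if (((rows p).take r).sum : ℤ) = j then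
    (f (rows p) : ℝ) ^ 2 / n.factorial else 0

def g (l : List ℕ) : ℕ :=
  (((cells l).permutations'.filter fun T =>
    decide (T.Pairwise fun a b => ¬ (b.1 ≤ a.1 ∧ b.2 ≤ a.2))).toFinset).card

lemma f_eq (l : List ℕ) : f l = g l := by
  unfold f g
  rw [← Set.ncard_coe_finset]
  congr 1
  ext T
  simp [IsSYT, List.mem_permutations']

def P6 : List (List ℕ) := [[6], [5, 1], [4, 2], [4, 1, 1], [3, 3], [3, 2, 1], [3, 1, 1, 1],
  [2, 2, 2], [2, 2, 1, 1], [2, 1, 1, 1, 1], [1, 1, 1, 1, 1, 1]]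

lemma g_val : P6.map g = [1, 5, 9, 10, 5, 16, 10, 5, 9, 5, 1] := by decide +kernel

lemma rows_inj {n : ℕ} : Function.Injective (rows (n := n)) := fun p q h => by
  apply Nat.Partition.ext
  rw [← Multiset.sort_eq p.parts (· ≥ ·), ← Multiset.sort_eq q.parts (· ≥ ·)]
  exact congrArg _ h

lemma mem_P6 (l : List ℕ) (h1 : l.Pairwise (· ≥ ·)) (h2 : ∀ x ∈ l, 0 < x) (h3 : l.sum = 6) :
    l ∈ P6 := by
  rcases l with _ | ⟨a, _ | ⟨b, _ | ⟨c, _ | ⟨d, _ | ⟨e, _ | ⟨k, _ | ⟨m, l⟩⟩⟩⟩⟩⟩⟩ <;>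
    simp [P6] at * <;> omega

lemma image_rows : (univ : Finset (Nat.Partition 6)).image rows = P6.toFinset := by
  ext l
  simp only [mem_image, mem_univ, true_and, List.mem_toFinset]
  constructor
  · rintro ⟨p, rfl⟩
    refine mem_P6 _ (Multiset.pairwise_sort _ _) (fun x hx => p.parts_pos (by simpa [rows] using hx)) ?_
    rw [← Multiset.sum_coe, rows, Multiset.sort_eq, p.parts_sum]
  · intro hl
    have h : ∀ l ∈ P6, l.Pairwise (· ≥ ·) ∧ (∀ x ∈ l, 0 < x) ∧ l.sum = 6 := by decide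
    obtain ⟨h1, h2, h3⟩ := h l hl
    refine ⟨⟨l, fun {x} hx => h2 x (by simpa using hx), by simpa using h3⟩, ?_⟩
    simp only [rows, Multiset.coe_sort]
    exact List.mergeSort_eq_self _ h1

lemma prob_eq (r : ℕ) (j : ℤ) : prob 6 r j =
    (P6.map fun l => if ((l.take r).sum : ℤ) = j then (g l : ℝ) ^ 2 / 720 else 0).sum := by
  unfold prob
  rw [← List.sum_toFinset _ (by decide), ← image_rows, sum_image fun p _ q _ h => rows_inj h]
  simp only [f_eq]
  norm_num [Nat.factorial]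

theorem result : prob 6 4 4 = 1 / 720 ∧ prob 6 4 5 = 25 / 720 ∧ prob 6 4 6 = 694 / 720 ∧
    ∃ (n r : ℕ) (j : ℤ), 1 ≤ n ∧ 2 ≤ r ∧ prob n r j ^ 2 < prob n r (j - 1) * prob n r (j + 1) := by
  have hg := g_val
  simp only [P6, List.map_cons, List.map_nil, List.cons.injEq, and_true] at hg
  obtain ⟨g1, g2, g3, g4, g5, g6, g7, g8, g9, g10, g11⟩ := hg
  have h4 : prob 6 4 4 = 1 / 720 := by
    rw [prob_eq]; simp [P6, g11]
  have h5 : prob 6 4 5 = 25 / 720 := by
    rw [prob_eq]; simp [P6, g10]; norm_num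
  have h6 : prob 6 4 6 = 694 / 720 := by
    rw [prob_eq]; simp [P6, g1, g2, g3, g4, g5, g6, g7, g8, g9]; norm_num
  refine ⟨h4, h5, h6, 6, 4, 5, by norm_num, by norm_num, ?_⟩
  norm_num [h4, h5, h6]

end Pool.Agent.Results.MP_64a7c6_pr.SumRows
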